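import Pool.Agent.Helper93.KS.St

/-!
# Project KS, MODULE DI: the starting estimate of the recursion
-/

set_option autoImplicit false

namespace Pool.Agent.Helper73.KS

open Finset Filter Topology Pool.Agent.Helper93.KS
open Pool.Agent.Helper9.TW (gm Qs fm StMER StC9)

private theorem gm_le (j : ℕ) (hj : 1 ≤ j) : gm j ≤ 1 / (j : ℝ) := by
  have h0 : (0 : ℝ) < j := by exact_mod_cast hj
  unfold gm
  have h1 : (0 : ℝ) < ((j : ℝ) + 1) / j := by positivity
  have h2 := Real.log_le_sub_one_of_pos h1
  have h3 : ((j : ℝ) + 1) / j - 1 = 1 / j := by field_simp; ring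
  linarith

private theorem gm_nonneg (j : ℕ) (hj : 1 ≤ j) : 0 ≤ gm j := by
  have h0 : (0 : ℝ) < j := by exact_mod_cast hj
  unfold gm
  apply Real.log_nonneg
  rw [le_div_iff₀ h0]
  linarith

/-- `e ^ 7.46 ≤ 1750` -/
private theorem exp_T : Real.exp (746 / 100) ≤ 1750 := by
  have h1 : Real.exp (746 / 100) = Real.exp 1 ^ 7 * Real.exp (46 / 100) := by
    rw [← Real.exp_nat_mul, ← Real.exp_add]
    congr 1
    norm_num
  have h2 : Real.exp (46 / 100) ≤ 15845 / 10000 := by
    have h3 := Real.exp_bound' (x := 46 / 100) (by norm_num) (by norm_num) (n := 6) (by norm_num)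
    refine h3.trans ?_
    simp only [Finset.sum_range_succ, Finset.sum_range_zero, Nat.factorial]
    norm_num
  have h4 : Real.exp 1 ≤ 27182818286 / 10000000000 := by
    have := Real.exp_one_lt_d9
    linarith
  rw [h1]
  calc Real.exp 1 ^ 7 * Real.exp (46 / 100)
      ≤ (27182818286 / 10000000000) ^ 7 * (15845 / 10000) := by
        apply mul_le_mul (pow_le_pow_left₀ (Real.exp_pos _).le h4 7) h2 (Real.exp_pos _).le
          (by positivity)
    _ ≤ 1750 := by norm_num

private theorem exp_5 : Real.exp 5 ≤ 149 := by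
  have h3 : Real.exp 5 = Real.exp 1 ^ 5 := by
    rw [← Real.exp_nat_mul]; norm_num
  rw [h3]
  have h4 : Real.exp 1 ≤ 27182818286 / 10000000000 := by
    have := Real.exp_one_lt_d9
    linarith
  calc Real.exp 1 ^ 5 ≤ (27182818286 / 10000000000) ^ 5 :=
        pow_le_pow_left₀ (Real.exp_pos _).le h4 5
    _ ≤ 149 := by norm_num

/-- the basic estimate -/
private theorem basic {S t j g : ℝ} (hj : 1000 * (S + 20) ≤ j) (ht : 746 / 100 ≤ t) (htS : t ≤ S)
    (hg0 : 0 ≤ g) (hg : g ≤ 2 / j) :
    Real.exp (-(t + t / j)) * (1 / (100 * j)) ≤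
      (1 - g) * Real.exp (-t) - Real.exp (-(t + t / j)) -
        g * Real.exp (-(t + t / j - 1 - 1 / j)) := by
  have hj0 : (0 : ℝ) < j := by linarith
  have hj2 : (20000 : ℝ) ≤ j := by linarith
  have e1 : Real.exp (-t) = Real.exp (-(t + t / j)) * Real.exp (t / j) := by
    rw [← Real.exp_add]; congr 1; ring
  have e2 : Real.exp (-(t + t / j - 1 - 1 / j))
      = Real.exp (-(t + t / j)) * (Real.exp 1 * Real.exp (1 / j)) := by
    rw [← Real.exp_add, ← Real.exp_add]; congr 1; ring
  have hE : 0 < Real.exp (-(t + t / j)) := Real.exp_pos _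
  have h1 : 1 + t / j ≤ Real.exp (t / j) := by
    have := Real.add_one_le_exp (t / j); linarith
  have h2 : Real.exp (1 / j) ≤ 1 + 1 / 10000 := by
    have h3 : 1 - 1 / j ≤ Real.exp (-(1 / j)) := by
      have := Real.add_one_le_exp (-(1 / j)); linarith
    have h4 : 1 / j ≤ 1 / 20000 := one_div_le_one_div_of_le (by norm_num) hj2
    have h5 : (0 : ℝ) < 1 - 1 / j := by linarith
    rw [Real.exp_neg] at h3
    have h6 : Real.exp (1 / j) ≤ (1 - 1 / j)⁻¹ := by
      rw [le_inv_comm₀ (Real.exp_pos _) h5]; exact h3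
    have h7 : (1 - 1 / j)⁻¹ ≤ (1 - 1 / 20000 : ℝ)⁻¹ := by
      apply inv_anti₀ (by norm_num)
      linarith
    have h8 : (1 - 1 / 20000 : ℝ)⁻¹ ≤ 1 + 1 / 10000 := by norm_num
    linarith
  have h3 : Real.exp 1 * Real.exp (1 / j) ≤ 271856 / 100000 := by
    have h4 : Real.exp 1 ≤ 27182818286 / 10000000000 := by
      have := Real.exp_one_lt_d9
      linarith
    calc Real.exp 1 * Real.exp (1 / j) ≤ 27182818286 / 10000000000 * (1 + 1 / 10000) :=
          mul_le_mul h4 h2 (Real.exp_pos _).le (by norm_num)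
      _ ≤ 271856 / 100000 := by norm_num
  have h4 : t / j ≤ 1 / 1000 := by
    rw [div_le_iff₀ hj0]; linarith
  have htj : 0 ≤ t / j := by positivity
  have hg1 : g ≤ 1 := by
    refine hg.trans ?_
    rw [div_le_one hj0]; linarith
  -- the bracket
  have hb : 1 / (100 * j) ≤ (1 - g) * Real.exp (t / j) - 1 - g * (Real.exp 1 * Real.exp (1 / j)) := by
    have h5 : (1 - g) * (1 + t / j) ≤ (1 - g) * Real.exp (t / j) :=
      mul_le_mul_of_nonneg_left h1 (by linarith)
    have h6 : g * (Real.exp 1 * Real.exp (1 / j)) ≤ g * (271856 / 100000) :=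
      mul_le_mul_of_nonneg_left h3 hg0
    have h7 : g * (1 + t / j + 271856 / 100000) ≤ 2 / j * (1 + 1 / 1000 + 271856 / 100000) := by
      apply mul_le_mul hg (by linarith) (by positivity) (by positivity)
    have h8 : 1 / (100 * j) ≤ t / j - 2 / j * (1 + 1 / 1000 + 271856 / 100000) := by
      have h9 : t / j - 2 / j * (1 + 1 / 1000 + 271856 / 100000) - 1 / (100 * j)
          = (t - 2 * (1 + 1 / 1000 + 271856 / 100000) - 1 / 100) / j := by
        field_simp
      have h10 : 0 ≤ (t - 2 * (1 + 1 / 1000 + 271856 / 100000) - 1 / 100) / j := by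
        apply div_nonneg _ hj0.le
        linarith
      linarith
    nlinarith
  rw [e1, e2]
  have h5 := mul_le_mul_of_nonneg_left hb hE.le
  have h6 : Real.exp (-(t + t / j)) *
      ((1 - g) * Real.exp (t / j) - 1 - g * (Real.exp 1 * Real.exp (1 / j))) =
      (1 - g) * (Real.exp (-(t + t / j)) * Real.exp (t / j)) - Real.exp (-(t + t / j)) -
        g * (Real.exp (-(t + t / j)) * (Real.exp 1 * Real.exp (1 / j))) := by ring
  linarith

/-- the estimate for small `t` -/
private theorem small {t j g : ℝ} (hj : 1000 ≤ j) (h3 : 3 ≤ t) (ht : t ≤ 746 / 100)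
    (hg : g ≤ 2 / j) :
    1750 * Real.exp (-(t + t / j)) + g ≤ (1 - g) * (1750 * Real.exp (-t)) := by
  have hj0 : (0 : ℝ) < j := by linarith
  have e1 : Real.exp (-t) = Real.exp (-(t + t / j)) * Real.exp (t / j) := by
    rw [← Real.exp_add]; congr 1; ring
  have e2 : Real.exp (-(t + t / j)) = Real.exp (-t) * Real.exp (-(t / j)) := by
    rw [← Real.exp_add]; congr 1; ring
  have htj : 0 ≤ t / j := by positivity
  have htj2 : t / j ≤ 1 / 100 := by
    rw [div_le_iff₀ hj0]; linarith
  have h1 : 1 + t / j ≤ Real.exp (t / j) := by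
    have := Real.add_one_le_exp (t / j); linarith
  have h2 : 99 / 100 ≤ Real.exp (-(t / j)) := by
    have := Real.add_one_le_exp (-(t / j)); linarith
  obtain ⟨e, he⟩ : ∃ e : ℝ, Real.exp (-(t + t / j)) = e := ⟨_, rfl⟩
  have he0 : 0 < e := he ▸ Real.exp_pos _
  -- the lower bound for `e`
  have hlow : 2 ≤ 1750 * e * (t - 2 - 2 * (t / j)) := by
    rcases le_or_gt t 5 with h5 | h5
    · have h6 : 1 / 149 ≤ Real.exp (-t) := by
        rw [Real.exp_neg, ← one_div]
        apply one_div_le_one_div_of_le (Real.exp_pos _)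
        exact (Real.exp_le_exp.2 h5).trans exp_5
      have h7 : 1 / 149 * (99 / 100) ≤ e := by
        rw [← he, e2]
        exact mul_le_mul h6 h2 (by norm_num) (Real.exp_pos _).le
      have h8 : 98 / 100 ≤ t - 2 - 2 * (t / j) := by linarith
      nlinarith
    · have h6 : 1 / 1750 ≤ Real.exp (-t) := by
        rw [Real.exp_neg, ← one_div]
        apply one_div_le_one_div_of_le (Real.exp_pos _)
        exact (Real.exp_le_exp.2 ht).trans exp_T
      have h7 : 1 / 1750 * (99 / 100) ≤ e := by
        rw [← he, e2]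
        exact mul_le_mul h6 h2 (by norm_num) (Real.exp_pos _).le
      have h8 : 298 / 100 ≤ t - 2 - 2 * (t / j) := by linarith
      nlinarith
  have hg1 : g ≤ 1 := by
    refine hg.trans ?_
    rw [div_le_one hj0]; linarith
  rw [e1, he]
  have h5 : (1 - g) * (1750 * (e * (1 + t / j))) ≤ (1 - g) * (1750 * (e * Real.exp (t / j))) := by
    apply mul_le_mul_of_nonneg_left _ (by linarith)
    apply mul_le_mul_of_nonneg_left _ (by norm_num)
    exact mul_le_mul_of_nonneg_left h1 he0.le
  refine le_trans ?_ h5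
  -- `g (1 + 1750 e (1 + t / j)) ≤ 1750 e t / j`
  have h6 : g * (1 + 1750 * e * (1 + t / j)) ≤ 2 / j * (1 + 1750 * e * (1 + t / j)) :=
    mul_le_mul_of_nonneg_right hg (by positivity)
  have h7 : 2 / j * (1 + 1750 * e * (1 + t / j)) ≤ 1750 * e * (t / j) := by
    have h8 : 1750 * e * (t / j) - 2 / j * (1 + 1750 * e * (1 + t / j))
        = (1750 * e * (t - 2 - 2 * (t / j)) - 2) / j := by
      field_simp
      ring
    have h9 : 0 ≤ (1750 * e * (t - 2 - 2 * (t / j)) - 2) / j := by
      apply div_nonneg _ hj0.le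
      linarith
    linarith
  nlinarith

theorem hDI (hV : StVB) : StDI := by
  intro κ S hκ
  refine ⟨⌈(S : ℝ) ^ 2 * Real.exp S⌉₊ + 1000 * (S + 20), ?_⟩
  intro j0 hj0 U L hax
  obtain ⟨c, hc⟩ : ∃ c : ℕ, ⌈(S : ℝ) ^ 2 * Real.exp S⌉₊ = c := ⟨_, rfl⟩
  have hcc : (S : ℝ) ^ 2 * Real.exp S ≤ c := by
    rw [← hc]
    exact Nat.le_ceil _
  rw [hc] at hj0
  clear hc
  have hSr : (0 : ℝ) ≤ (S : ℝ) := Nat.cast_nonneg S
  have hj0pos : (0 : ℝ) < (j0 : ℝ) := by
    have : 0 < j0 := by omega
    exact_mod_cast this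
  have hκr : (κ : ℝ) ≤ 2 := by exact_mod_cast hκ
  have hκ0 : (0 : ℝ) ≤ (κ : ℝ) := Nat.cast_nonneg κ
  -- facts for j ≥ j0
  have hfact : ∀ j : ℕ, j0 ≤ j → 1000 * ((S : ℝ) + 20) ≤ j ∧ (S : ℝ) ^ 2 * Real.exp S ≤ j := by
    intro j hj
    constructor
    · have h1 : 1000 * (S + 20) ≤ j := le_trans (le_trans (Nat.le_add_left _ _) hj0) hj
      have h2 : (((1000 * (S + 20) : ℕ)) : ℝ) ≤ (j : ℝ) := Nat.cast_le.2 h1
      push_cast at h2
      linarith
    · have h1 : c ≤ j := le_trans (le_trans (Nat.le_add_right _ _) hj0) hj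
      exact hcc.trans (by exact_mod_cast h1)
  have main : ∀ j : ℕ, j0 ≤ j → ∀ N : ℕ, N ≤ S * j0 →
      L N j (1750 * Real.exp (-((N : ℝ) / j))) ∧
      (3 * j ≤ N → U N j (1750 * Real.exp (-((N : ℝ) / j)))) := by
    intro j hj
    induction j, hj using Nat.le_induction with
    | base =>
      intro N hN
      have h1 : (0 : ℝ) ≤ 1750 * Real.exp (-((N : ℝ) / j0)) := by positivity
      exact ⟨hax.lm N j0 0 _ (hax.l0 N hN) h1, fun _ => hax.um N j0 0 _ (hax.u0 N hN) h1⟩
    | succ j hj ih =>
      intro N hN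
      obtain ⟨hf1, hf2⟩ := hfact j hj
      have hjr : (0 : ℝ) < (j : ℝ) := by linarith
      have hj1000 : (1000 : ℝ) ≤ j := by linarith
      have hj1 : 1 ≤ j := by
        have : (1 : ℝ) ≤ j := by linarith
        exact_mod_cast this
      have hjr1 : (0 : ℝ) < (j : ℝ) + 1 := by linarith
      have hcast : (((j + 1 : ℕ) : ℝ)) = (j : ℝ) + 1 := by push_cast; ring
      rw [hcast]
      have hNS : (N : ℝ) ≤ S * j0 := by exact_mod_cast hN
      have hjj : (j0 : ℝ) ≤ j := by exact_mod_cast hj
      have hNSj : (N : ℝ) ≤ S * j := by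
        have : (S : ℝ) * j0 ≤ S * j := mul_le_mul_of_nonneg_left hjj hSr
        linarith
      obtain ⟨t, ht⟩ : ∃ t : ℝ, (N : ℝ) / ((j : ℝ) + 1) = t := ⟨_, rfl⟩
      have hNt : (N : ℝ) = t * ((j : ℝ) + 1) := by
        rw [← ht]; field_simp
      have hst : (N : ℝ) / j = t + t / j := by
        rw [hNt]; field_simp
      have htS : t ≤ S := by
        rw [← ht, div_le_iff₀ hjr1]
        nlinarith
      have ht0 : 0 ≤ t := by rw [← ht]; positivity
      obtain ⟨g, hgdef⟩ : ∃ g : ℝ, (κ : ℝ) * gm j = g := ⟨_, rfl⟩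
      have hgm0 := gm_nonneg j hj1
      have hgm1 := gm_le j hj1
      have hg0 : 0 ≤ g := by rw [← hgdef]; positivity
      have hg : g ≤ 2 / j := by
        rw [← hgdef]
        calc (κ : ℝ) * gm j ≤ 2 * (1 / (j : ℝ)) := mul_le_mul hκr hgm1 hgm0 (by norm_num)
          _ = 2 / j := by ring
      have hg1 : 0 < 1 - g := by
        have : 2 / (j : ℝ) < 1 := by
          rw [div_lt_one hjr]; linarith
        linarith
      rw [ht]
      -- the induction hypotheses in terms of `t`
      have hL1 : L N j (1750 * Real.exp (-(t + t / j))) := by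
        have := (ih N hN).1
        rwa [hst] at this
      have hE0 : (0 : ℝ) ≤ 1750 * Real.exp (-(t + t / j)) := by positivity
      rcases lt_or_ge t (746 / 100) with hsm | hbig
      · -- small `t`
        have h1 : 1 ≤ 1750 * Real.exp (-t) := by
          have h2 : Real.exp t ≤ 1750 := (Real.exp_le_exp.2 hsm.le).trans exp_T
          have h3 : Real.exp t * Real.exp (-t) = 1 := by
            rw [← Real.exp_add]; simp
          have h4 := mul_le_mul_of_nonneg_right h2 (Real.exp_pos (-t)).le
          linarith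
        refine ⟨hax.lm N (j + 1) 1 _ (hax.lz N (j + 1) (by omega) hN) h1, fun h3 => ?_⟩
        have hU1 : U N j (1750 * Real.exp (-(t + t / j))) := by
          have := (ih N hN).2 (by omega)
          rwa [hst] at this
        have ht3 : 3 ≤ t := by
          rw [← ht, le_div_iff₀ hjr1]
          have : ((3 * (j + 1) : ℕ) : ℝ) ≤ N := by exact_mod_cast h3
          push_cast at this; linarith
        have h4 := hax.uk N j _ hj hN hE0 hU1
        refine hax.um N (j + 1) _ _ h4 ?_
        rw [hgdef, div_le_iff₀ hg1]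
        have h5 := small hj1000 ht3 hsm.le hg
        linarith
      · -- large `t`
        have hb := basic hf1 hbig htS hg0 hg
        have hN7 : 7 * (j + 1) ≤ N := by
          have : ((7 * (j + 1) : ℕ) : ℝ) ≤ N := by
            push_cast
            rw [hNt]
            nlinarith
          exact_mod_cast this
        have hc : (((N - (j + 1) : ℕ) : ℝ)) / j = t + t / j - 1 - 1 / j := by
          rw [Nat.cast_sub (by omega), ← hst]; push_cast; field_simp; ring
        have hL2 : L (N - (j + 1)) j (1750 * Real.exp (-(t + t / j - 1 - 1 / j))) := by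
          have := (ih (N - (j + 1)) (by omega)).1
          rwa [hc] at this
        have hU2 : U (N - (j + 1)) j (1750 * Real.exp (-(t + t / j - 1 - 1 / j))) := by
          have := (ih (N - (j + 1)) (by omega)).2 (by omega)
          rwa [hc] at this
        have hU1 : U N j (1750 * Real.exp (-(t + t / j))) := by
          have := (ih N hN).2 (by omega)
          rwa [hst] at this
        have hE2 : (0 : ℝ) ≤ 1750 * Real.exp (-(t + t / j - 1 - 1 / j)) := by positivity
        have hpos : 0 ≤ Real.exp (-(t + t / j)) * (1 / (100 * j)) := by positivity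
        refine ⟨?_, fun _ => ?_⟩
        · have h4 := hax.ls N j _ _ hj (by omega) hN hE0 hE2 hL1 hU2
          refine hax.lm N (j + 1) _ _ h4 ?_
          rw [hgdef, div_le_iff₀ hg1]
          nlinarith
        · have h4 := hax.us N j _ _ hj (by omega) hN hE0 hE2 hU1 hL2
          refine hax.um N (j + 1) _ _ h4 ?_
          rw [hgdef, div_le_iff₀ hg1]
          -- the square
          have hVV := hV κ j0 j hκ (by omega) hj
          have hSpos : (1 : ℝ) ≤ S := by linarith
          have hjS : (j : ℝ) ≤ S * j0 := by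
            have h5 : ((7 * (j + 1) : ℕ) : ℝ) ≤ N := by exact_mod_cast hN7
            push_cast at h5
            nlinarith
          have hq : 1 / (S : ℝ) ≤ (j0 : ℝ) / j := by
            rw [div_le_div_iff₀ (by linarith) hjr]
            linarith
          have hq2 : (1 / (S : ℝ)) ^ 2 ≤ ((j0 : ℝ) / j) ^ 2 := pow_le_pow_left₀ (by positivity) hq 2
          have hVpos : (1 / (S : ℝ)) ^ 2 / 2 ≤ VV κ j0 j := by linarith
          have hsq : g ^ 2 / (2 * VV κ j0 j) ≤ 4 * (S : ℝ) ^ 2 / (j : ℝ) ^ 2 := by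
            have h6 : g ^ 2 ≤ (2 / (j : ℝ)) ^ 2 := pow_le_pow_left₀ hg0 hg 2
            have h7 : 0 < (1 / (S : ℝ)) ^ 2 := by positivity
            calc g ^ 2 / (2 * VV κ j0 j) ≤ (2 / (j : ℝ)) ^ 2 / ((1 / (S : ℝ)) ^ 2) := by
                  apply div_le_div₀ (by positivity) h6 h7
                  linarith
              _ = 4 * (S : ℝ) ^ 2 / (j : ℝ) ^ 2 := by
                  field_simp
                  ring
          have hES : 4 * (S : ℝ) ^ 2 / (j : ℝ) ^ 2 ≤ 1750 * (Real.exp (-(t + t / j)) * (1 / (100 * j))) := by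
            have h6 : Real.exp (-(S : ℝ)) ≤ Real.exp (-(t + t / j)) := by
              apply Real.exp_le_exp.2
              rw [← hst]
              have : (N : ℝ) / j ≤ S := by
                rw [div_le_iff₀ hjr]; exact hNSj
              linarith
            have h7 : (S : ℝ) ^ 2 ≤ j * Real.exp (-(S : ℝ)) := by
              have h8 : Real.exp (S : ℝ) * Real.exp (-(S : ℝ)) = 1 := by
                rw [← Real.exp_add]; simp
              have h9 := mul_le_mul_of_nonneg_right hf2 (Real.exp_pos (-(S : ℝ))).le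
              rw [mul_assoc, h8, mul_one] at h9
              exact h9
            have h8 : (S : ℝ) ^ 2 ≤ j * Real.exp (-(t + t / j)) :=
              h7.trans (mul_le_mul_of_nonneg_left h6 hjr.le)
            have h9 : 1750 * (Real.exp (-(t + t / j)) * (1 / (100 * (j : ℝ))))
                = (35 / 2 * (j * Real.exp (-(t + t / j)))) / (j : ℝ) ^ 2 := by
              field_simp
              ring
            rw [h9]
            apply div_le_div_of_nonneg_right _ (by positivity)
            have : (0 : ℝ) ≤ (S : ℝ) ^ 2 := by positivity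
            linarith
          nlinarith
  intro j N hj hN
  exact main j hj N hN

end Pool.Agent.Helper73.KS
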